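import Mathlib
import Pool.Agent.LeoD.CountStmts
import Pool.Agent.Helper27_LeoC.Low

/-!
# LEOD, module LOWB: many marks of `𝓞 ⊕ 𝔟`
-/

set_option autoImplicit false

open NumberField NumberField.InfinitePlace NumberField.mixedEmbedding IsDedekindDomain Module
  MeasureTheory Filter Topology
open Pool.Agent.Helper85_Leo Pool.Agent.LeoK Pool.Agent.LeoG Pool.Agent.LeoC
open Pool.Agent.LeoK.H13 (ncard_cover)

open scoped Classical

namespace Pool.Agent.LeoD.H27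

theorem BFr_pos {k : Type} [Field k] [NumberField k] (B : BFr k) : 0 < B.b := by
  rcases Nat.eq_zero_or_pos B.b with h | h
  · have h1 := B.cop
    rw [h] at h1
    exact absurd h1 (by decide)
  · exact h

theorem mem_left {R : Type} [CommRing R] (I J : Ideal R) (x : R) (h : x ∈ I * J) : x ∈ I :=
  (Ideal.mul_le_left : I * J ≤ I) h

/-- LOWB -/
theorem lowb (hLWS : LwsStmt) (hPRB : PrbStmt) (hLWT : Pool.Agent.LeoC.LwtStmt)
    (hPIK : Pool.Agent.LeoK.PikStmt) : LowbStmt := by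
  intro k _ _ Φ N B δ ε hδ hε
  have hb : (0 : ℝ) < (B.b : ℝ) := by exact_mod_cast BFr_pos B
  obtain ⟨A, hA, hT⟩ := hLWT k Φ N δ hδ
  obtain ⟨hsum, hPk, -, -, hQle, -⟩ := hPIK k
  -- finiteness
  have hfin : ∀ (T η : ℝ) (g : Q4 (𝓞 k)), 0 < T → Lrg N δ g → (MksB B Φ T η g).Finite := by
    intro T η v hT0 hv
    refine (hT v hv T hT0).1.subset ?_
    rintro p ⟨-, -, h2, h3, -⟩
    exact ⟨h2, h3⟩
  -- the degenerate cases
  by_cases hdeg : 1 < ε ∨ Φ.w = 0 ∨ cov k = 0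
  · refine ⟨1, 1, one_pos, one_pos, le_rfl, fun v hv => ⟨hfin 1 1 v one_pos hv, ?_⟩⟩
    have h0 : (1 - ε) * (Pk k * (2 * Real.pi) ^ finrank ℚ k * Φ.w * 1 / cov k ^ 2) ≤ 0 := by
      rcases hdeg with h | h | h
      · apply mul_nonpos_of_nonpos_of_nonneg (by linarith)
        have hv : 0 ≤ Φ.w := ENNReal.toReal_nonneg
        have hpi : 0 < (2 * Real.pi) ^ finrank ℚ k := by positivity
        have := mul_nonneg (mul_nonneg hPk.le hpi.le) hv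
        positivity
      · rw [h]; simp
      · rw [h]; simp
    exact h0.trans (mul_nonneg hb.le (Nat.cast_nonneg _))
  push Not at hdeg
  obtain ⟨hε1, hvF, hD⟩ := hdeg
  have hvF' : 0 < Φ.w := lt_of_le_of_ne ENNReal.toReal_nonneg (Ne.symm hvF)
  have hD' : 0 < cov k := lt_of_le_of_ne ENNReal.toReal_nonneg (Ne.symm hD)
  set c0 : ℝ := (2 * Real.pi) ^ finrank ℚ k * Φ.w with hc0
  have hc0' : 0 < c0 := by rw [hc0]; positivity
  obtain ⟨η0, hη0, hLA⟩ := hLWS k Φ N (ε * c0 / 2) (by positivity)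
  -- the set of primes
  obtain ⟨Q, hQ⟩ := (summable_iff_vanishing_norm.1 hsum)
    (ε / 2 * Pk k * c0 / cov k ^ 2 / A / B.b) (by positivity)
  obtain ⟨J, S, hJ, hS, hSc⟩ := hPRB k B Q
  obtain ⟨T, hT0, hLA'⟩ := hLA δ J S hδ hJ
  refine ⟨T, min η0 1, hT0, lt_min hη0 one_pos, min_le_right _ _, fun v hv =>
    ⟨hfin T _ v hT0 hv, ?_⟩⟩
  have hG := hLA' T le_rfl v hv
  set G : Set (𝓞 k × 𝓞 k) := {p : 𝓞 k × 𝓞 k |
        (Ideal.Quotient.mk J p.1, Ideal.Quotient.mk J p.2) ∈ S ∧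
        hk v p.1 p.2 ∈ Φ.F ∧ nr (hk v p.1 p.2) ≤ T ∧
        ∀ s : InfinitePlace k, η0 * s ((mm v : 𝓞 k) : k) ^ (1 / 4 : ℝ) ≤
          s ((gval v p.1 p.2 : 𝓞 k) : k)} with hGdef
  have hGfin : G.Finite := by
    refine (hT v hv T hT0).1.subset ?_
    rintro p ⟨-, h2, h3, -⟩
    exact ⟨h2, h3⟩
  set W : Set (𝓞 k × 𝓞 k) := {p | p ∈ G ∧ ∃ q : HeightOneSpectrum (𝓞 k),
    p.1 ∈ q.asIdeal ∧ p.2 ∈ q.asIdeal * B.bb} with hWdef
  have hWfin : W.Finite := hGfin.subset (fun p hp => hp.1)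
  have hWc : (W.ncard : ℝ) ≤ A * T * (ε / 2 * Pk k * c0 / cov k ^ 2 / A / B.b) := by
    refine ncard_cover W hWfin (fun q : HeightOneSpectrum (𝓞 k) =>
      {p : 𝓞 k × 𝓞 k | p.1 ∈ q.asIdeal ∧ p.2 ∈ q.asIdeal ∧ hk v p.1 p.2 ∈ Φ.F ∧
        nr (hk v p.1 p.2) ≤ T}) ?_ (fun p => 1 / np p ^ 2) (A * T) _ (by positivity) Q hQ ?_ ?_
    · intro q
      refine (hT v hv T hT0).1.subset ?_
      rintro p ⟨-, -, h2, h3⟩
      exact ⟨h2, h3⟩
    · intro q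
      have := (hT v hv T hT0).2 q
      calc _ ≤ A * T / np q ^ 2 := this
        _ = A * T * (1 / np q ^ 2) := by ring
    · rintro p ⟨⟨h1, h2, h3, h4⟩, q, hq1, hq2⟩
      have h5 : p.2 ∈ q.asIdeal := mem_left q.asIdeal B.bb p.2 hq2
      have h6 : q ∉ Q := fun hqQ => (hS p.1 p.2 h1).2 q hqQ ⟨hq1, hq2⟩
      exact ⟨q, h6, hq1, h5, h2, h3⟩
  -- the good set minus the bad set consists of marks
  have hsub : G \ W ⊆ MksB B Φ T (min η0 1) v := by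
    rintro p ⟨⟨h1, h2, h3, h4⟩, hpW⟩
    refine ⟨(hS p.1 p.2 h1).1, fun q hq => hpW ⟨⟨h1, h2, h3, h4⟩, q, hq⟩, h2, h3, fun s => ?_⟩
    refine le_trans ?_ (h4 s)
    exact mul_le_mul_of_nonneg_right (min_le_left _ _) (Real.rpow_nonneg (apply_nonneg s _) _)
  have hcard : (G.ncard : ℝ) ≤ ((MksB B Φ T (min η0 1) v).ncard : ℝ) + (W.ncard : ℝ) := by
    have h1 : G.ncard ≤ (G \ W).ncard + W.ncard := Set.ncard_le_ncard_sdiff_add_ncard G W hWfin
    have h2 : (G \ W).ncard ≤ (MksB B Φ T (min η0 1) v).ncard :=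
      Set.ncard_le_ncard hsub (hfin T _ v hT0 hv)
    have h3 : G.ncard ≤ (MksB B Φ T (min η0 1) v).ncard + W.ncard := by omega
    exact_mod_cast h3
  have hJ0 : (0 : ℝ) < (Ideal.absNorm J : ℝ) := by
    have h1 : Ideal.absNorm J ≠ 0 := fun h => hJ (Ideal.absNorm_eq_zero_iff.1 h)
    exact_mod_cast Nat.pos_of_ne_zero h1
  have hprod : Pk k ≤ B.b * ((S.ncard : ℝ) / (Ideal.absNorm J : ℝ) ^ 2) := by
    refine (hQle Q).1.trans ?_
    rw [← mul_div_assoc, le_div_iff₀ (by positivity)]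
    exact hSc
  -- arithmetic
  have hA1 : (B.b : ℝ) * (A * T * (ε / 2 * Pk k * c0 / cov k ^ 2 / A / B.b)) =
      ε / 2 * (Pk k * c0 * T / cov k ^ 2) := by
    field_simp
  have h10 : Pk k * (c0 - ε * c0 / 2) * T / cov k ^ 2 ≤ B.b * (G.ncard : ℝ) := by
    have h11 : 0 ≤ c0 - ε * c0 / 2 := by nlinarith
    calc Pk k * (c0 - ε * c0 / 2) * T / cov k ^ 2
        ≤ (B.b * ((S.ncard : ℝ) / (Ideal.absNorm J : ℝ) ^ 2)) * (c0 - ε * c0 / 2) * T /
          cov k ^ 2 := by gcongr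
      _ = B.b * ((S.ncard : ℝ) / (Ideal.absNorm J : ℝ) ^ 2 * (c0 - ε * c0 / 2) * T /
          cov k ^ 2) := by ring
      _ ≤ B.b * (G.ncard : ℝ) := mul_le_mul_of_nonneg_left hG hb.le
  have h12 : Pk k * (c0 - ε * c0 / 2) * T / cov k ^ 2 =
      (1 - ε / 2) * (Pk k * c0 * T / cov k ^ 2) := by
    ring
  have h13 : (1 - ε) * (Pk k * (2 * Real.pi) ^ finrank ℚ k * Φ.w * T / cov k ^ 2) =
      (1 - ε) * (Pk k * c0 * T / cov k ^ 2) := by
    rw [hc0]; ring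
  have h14 : (B.b : ℝ) * (W.ncard : ℝ) ≤ ε / 2 * (Pk k * c0 * T / cov k ^ 2) := by
    rw [← hA1]
    exact mul_le_mul_of_nonneg_left hWc hb.le
  have h15 : (B.b : ℝ) * (G.ncard : ℝ) ≤
      B.b * ((MksB B Φ T (min η0 1) v).ncard : ℝ) + B.b * (W.ncard : ℝ) := by
    rw [← mul_add]
    exact mul_le_mul_of_nonneg_left hcard hb.le
  rw [h13]
  linarith

end Pool.Agent.LeoD.H27
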